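import Pool.Agent.W221.NS.Stm2
import Pool.Agent.W583.MD.EN

/-!
Project ME, part EN2: the energy inequality.
-/

set_option autoImplicit false

open MeasureTheory Set Metric Filter Topology
open scoped ContDiff

namespace Pool.Agent.W352.ME

open H459R3.NS W221.NS
open Pool.Agent.W583.MD (hcs sm_pd cs_pd pd_mul' Z Z.add Z.sub Z.smul Z.sum int_cs Z_pd slice
  hd_slice cont_dt_slice dt_zero hd_int)

theorem pd_sub' {f g : V → ℝ} (hf : ContDiff ℝ ∞ f) (hg : ContDiff ℝ ∞ g) (j : Fin 3) (x : V) :
    pd j (fun y => f y - g y) x = pd j f x - pd j g x := by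
  unfold pd
  have h : HasFDerivAt (fun y => f y - g y) _ x :=
    ((hf.differentiable (by norm_cast)) x).hasFDerivAt.sub
      ((hg.differentiable (by norm_cast)) x).hasFDerivAt
  rw [h.fderiv]
  rfl

section

variable {w u : Fin 3 → V → ℝ} {π φ : V → ℝ}

theorem Z_main (hw : ∀ i, ContDiff ℝ ∞ (w i)) (hu : ∀ i, ContDiff ℝ ∞ (u i))
    (hπ : ContDiff ℝ ∞ π) (hφ : ContDiff ℝ ∞ φ)
    (hs : HasCompactSupport φ) : Z (fun x => ∑ j, ((∑ i, (2 * pd j (fun y => w i y * pd j (w i) y * φ y) x
      - pd j (fun y => w i y * w i y * pd j φ y) x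
      - pd j (fun y => u j y * (w i y * w i y) * φ y) x))
      - 2 * pd j (fun y => π y * w j y * φ y) x)) := by
  refine Z.sum fun j => Z.sub (Z.sum fun i => Z.sub (Z.sub (Z.smul (Z_pd ?_ ?_ j) 2)
    (Z_pd ?_ ?_ j)) (Z_pd ?_ ?_ j)) (Z.smul (Z_pd ?_ ?_ j) 2)
  · exact ((hw i).mul (sm_pd (hw i) j)).mul hφ
  · exact hs.mul_left
  · exact ((hw i).mul (hw i)).mul (sm_pd hφ j)
  · exact (cs_pd hs j).mul_left
  · exact ((hu j).mul ((hw i).mul (hw i))).mul hφ
  · exact hs.mul_left
  · exact (hπ.mul (hw j)).mul hφ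
  · exact hs.mul_left

theorem point (hw : ∀ i, ContDiff ℝ ∞ (w i)) (hu : ∀ i, ContDiff ℝ ∞ (u i))
    (hπ : ContDiff ℝ ∞ π) (hφ : ContDiff ℝ ∞ φ) (x : V)
    (h1 : (∑ i, pd i (u i) x) * φ x = 0) (h2 : (∑ i, pd i (w i) x) * φ x = 0) :
    ∑ j, ((∑ i, (2 * pd j (fun y => w i y * pd j (w i) y * φ y) x
      - pd j (fun y => w i y * w i y * pd j φ y) x
      - pd j (fun y => u j y * (w i y * w i y) * φ y) x))
      - 2 * pd j (fun y => π y * w j y * φ y) x) =
    (∑ i, 2 * w i x * (∑ j, pd j (pd j (w i)) x - pd i π x - ∑ j, u j x * pd j (w i) x)) * φ x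
      - (-2 * ((∑ i, ∑ j, pd j (w i) x ^ 2) * φ x) + (∑ i, w i x ^ 2) * (∑ j, pd j (pd j φ) x)
        + (∑ i, w i x ^ 2) * (∑ j, u j x * pd j φ x)
        + 2 * (π x * ∑ j, w j x * pd j φ x)) := by
  have e1 : ∀ i j, pd j (fun y => w i y * pd j (w i) y * φ y) x =
      w i x * pd j (w i) x * pd j φ x + (w i x * pd j (pd j (w i)) x + pd j (w i) x * pd j (w i) x)
        * φ x := by
    intro i j
    rw [pd_mul' ((hw i).mul (sm_pd (hw i) j)) hφ, pd_mul' (hw i) (sm_pd (hw i) j)]
  have e2 : ∀ i j, pd j (fun y => w i y * w i y * pd j φ y) x =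
      w i x * w i x * pd j (pd j φ) x + (w i x * pd j (w i) x + pd j (w i) x * w i x)
        * pd j φ x := by
    intro i j
    rw [pd_mul' ((hw i).mul (hw i)) (sm_pd hφ j), pd_mul' (hw i) (hw i)]
  have e3 : ∀ i j, pd j (fun y => u j y * (w i y * w i y) * φ y) x =
      u j x * (w i x * w i x) * pd j φ x + (u j x * (w i x * pd j (w i) x + pd j (w i) x * w i x)
        + pd j (u j) x * (w i x * w i x)) * φ x := by
    intro i j
    rw [pd_mul' ((hu j).mul ((hw i).mul (hw i))) hφ, pd_mul' (hu j) ((hw i).mul (hw i)),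
      pd_mul' (hw i) (hw i)]
  have e4 : ∀ j, pd j (fun y => π y * w j y * φ y) x =
      π x * w j x * pd j φ x + (π x * pd j (w j) x + pd j π x * w j x) * φ x := by
    intro j
    rw [pd_mul' (hπ.mul (hw j)) hφ, pd_mul' hπ (hw j)]
  simp only [e1, e2, e3, e4]
  simp only [Fin.sum_univ_three] at h1 h2 ⊢
  linear_combination (-(w 0 x ^ 2 + w 1 x ^ 2 + w 2 x ^ 2)) * h1 - 2 * π x * h2

end

/-- the bound for the remainder -/
theorem rem_bound (w u h : Fin 3 → ℝ) (D : Fin 3 → Fin 3 → ℝ) (g G : ℝ) (hg : 0 ≤ g)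
    (hG : G = g ^ 2) (hD : ∀ i, |u i - w i| ≤ g) (hd : ∀ i j, |D i j| ≤ g)
    (hh : ∀ i, |h i| ≤ g + G) :
    ∑ i, 2 * w i * (h i - ∑ j, u j * D i j) ≤
      24 * (g * (∑ i, w i ^ 2) + (g + G) * √(∑ i, w i ^ 2)) := by
  obtain ⟨s, hs⟩ : ∃ s, s = √(∑ i, w i ^ 2) := ⟨_, rfl⟩
  have hs0 : 0 ≤ s := by rw [hs]; exact Real.sqrt_nonneg _
  have hss : ∑ i, w i ^ 2 = s ^ 2 := by
    rw [hs, Real.sq_sqrt (Finset.sum_nonneg fun i _ => sq_nonneg _)]
  have hw : ∀ i, |w i| ≤ s := by
    intro i
    rw [hs]
    apply Real.abs_le_sqrt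
    exact Finset.single_le_sum (f := fun i => w i ^ 2) (fun i _ => sq_nonneg _) (Finset.mem_univ i)
  have hu : ∀ i, |u i| ≤ s + g := by
    intro i
    have e : u i = w i + (u i - w i) := by ring
    rw [e]
    exact (abs_add_le _ _).trans (add_le_add (hw i) (hD i))
  rw [← hs, hss]
  have hb : ∀ i, |h i - ∑ j, u j * D i j| ≤ (g + G) + 3 * ((s + g) * g) := by
    intro i
    refine (abs_sub _ _).trans (add_le_add (hh i) ?_)
    refine (Finset.abs_sum_le_sum_abs _ _).trans ?_
    have h1 : ∀ j ∈ Finset.univ, |u j * D i j| ≤ (s + g) * g := by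
      intro j _
      rw [abs_mul]
      exact mul_le_mul (hu j) (hd i j) (abs_nonneg _) (by linarith)
    refine (Finset.sum_le_sum h1).trans ?_
    simp
  have hi : ∀ i ∈ Finset.univ, 2 * w i * (h i - ∑ j, u j * D i j) ≤
      2 * (s * ((g + G) + 3 * ((s + g) * g))) := by
    intro i _
    refine (le_abs_self _).trans ?_
    rw [abs_mul, abs_mul, abs_two, mul_assoc]
    refine mul_le_mul_of_nonneg_left ?_ (by norm_num)
    exact mul_le_mul (hw i) (hb i) (abs_nonneg _) hs0
  refine (Finset.sum_le_sum hi).trans ?_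
  simp only [Finset.sum_const, Finset.card_univ, Fintype.card_fin, nsmul_eq_mul]
  push_cast
  rw [hG]
  nlinarith [mul_nonneg hs0 hg, mul_nonneg (mul_nonneg hs0 hs0) hg,
    mul_nonneg (mul_nonneg hs0 hg) hg]

/-- EN2: the energy inequality -/
theorem t_EN2 : S_EN2 := by
  refine ⟨24, by norm_num, ?_⟩
  intro v W G ε hL α β hα hβ Φ hΦ hs t ht hpos P hP
  obtain ⟨-, hWsm, -, -, -⟩ := hL
  have hsub : Ioo α β ×ˢ (univ : Set V) ⊆ Ioo (-1) 0 ×ˢ univ :=
    prod_mono (Ioo_subset_Ioo hα hβ) subset_rfl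
  have hW : ContDiffOn ℝ ∞ (fun z : ℝ × V => W z.1 z.2) (Ioo α β ×ˢ univ) := hWsm.mono hsub
  have hWi : ∀ i, ContDiffOn ℝ ∞ (fun z : ℝ × V => W z.1 z.2 i) (Ioo α β ×ˢ univ) :=
    fun i => contDiffOn_pi.1 hW i
  have hw : ∀ i, ContDiff ℝ ∞ (fun y => W t y i) := fun i =>
    slice (F := fun t y => W t y i) (hWi i) ht
  have hu : ∀ i, ContDiff ℝ ∞ (fun y => v t y i) := fun i => contDiff_pi.1 hP.sv i
  have hφ : ContDiff ℝ ∞ (Φ t) := slice hΦ ht
  have hc : HasCompactSupport (Φ t) := hcs (hs t ht)
  have hdΦ : Continuous fun x => deriv (fun s => Φ s x) t := cont_dt_slice hΦ ht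
  have hdc : HasCompactSupport fun x => deriv (fun s => Φ s x) t :=
    hcs fun z hz => dt_zero hs ht hz
  have hn : Continuous (nsq (W t)) := by
    unfold nsq
    exact continuous_finsetSum _ fun i _ => (hw i).continuous.pow 2
  have hg : Continuous (gsq (W t)) := by
    unfold gsq
    exact continuous_finsetSum _ fun i _ => continuous_finsetSum _ fun j _ =>
      (sm_pd (hw i) j).continuous.pow 2
  have hlap : Continuous (lap (Φ t)) := by
    unfold lap
    exact continuous_finsetSum _ fun j _ => (sm_pd (sm_pd hφ j) j).continuous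
  have hlc : HasCompactSupport (lap (Φ t)) := by
    have h0 := cs_pd (cs_pd hc 0) 0
    have h1 := cs_pd (cs_pd hc 1) 1
    have h2 := cs_pd (cs_pd hc 2) 2
    have e : lap (Φ t) = pd 0 (pd 0 (Φ t)) + pd 1 (pd 1 (Φ t)) + pd 2 (pd 2 (Φ t)) := by
      funext x
      unfold lap
      rw [Fin.sum_univ_three]
      rfl
    rw [e]
    exact (h0.add h1).add h2
  have hadvc : ∀ r : V → V, (∀ i, ContDiff ℝ ∞ (fun y => r y i)) → Continuous (adv r (Φ t)) := by
    intro r hr
    unfold adv
    exact continuous_finsetSum _ fun j _ => (hr j).continuous.mul (sm_pd hφ j).continuous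
  have hadvs : ∀ r : V → V, HasCompactSupport (adv r (Φ t)) := by
    intro r
    have h0 := (cs_pd hc 0).mul_left (f := fun x => r x 0)
    have h1 := (cs_pd hc 1).mul_left (f := fun x => r x 1)
    have h2 := (cs_pd hc 2).mul_left (f := fun x => r x 2)
    have e : adv r (Φ t) = (fun x => r x 0) * pd 0 (Φ t) + (fun x => r x 1) * pd 1 (Φ t) +
        (fun x => r x 2) * pd 2 (Φ t) := by
      funext x
      unfold adv
      rw [Fin.sum_univ_three]
      rfl
    rw [e]
    exact (h0.add h1).add h2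
  -- the derivative in time
  have hF : ContDiffOn ℝ ∞ (fun z : ℝ × V => nsq (W z.1) z.2 * Φ z.1 z.2) (Ioo α β ×ˢ univ) := by
    unfold nsq
    exact (ContDiffOn.sum fun i _ => (hWi i).pow 2).mul hΦ
  have hF0 : ∀ s ∈ Ioo α β, ∀ z ∉ ball (0 : V) 1, nsq (W s) z * Φ s z = 0 :=
    fun s hs' z hz => by rw [hs s hs' z hz, mul_zero]
  have h1 := hd_int (F := fun s z => nsq (W s) z * Φ s z) hF hF0 ht
  refine ⟨_, h1, ?_⟩
  -- the integrand
  have hD : ∀ x, deriv (fun s => nsq (W s) x * Φ s x) t =
      (∑ i, 2 * W t x i * deriv (fun s => W s x i) t) * Φ t x +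
        nsq (W t) x * deriv (fun s => Φ s x) t := by
    intro x
    have d1 : ∀ i, HasDerivAt (fun s => W s x i) (deriv (fun s => W s x i) t) t := by
      intro i
      have d := hd_slice (F := fun t y => W t y i) (hWi i) ht x
      rw [← d.deriv] at d
      exact d
    have d2 : HasDerivAt (fun s => Φ s x) (deriv (fun s => Φ s x) t) t := by
      have d := hd_slice hΦ ht x
      rwa [← d.deriv] at d
    have d3 : HasDerivAt (fun s => nsq (W s) x)
        (∑ i, 2 * W t x i * deriv (fun s => W s x i) t) t := by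
      unfold nsq
      refine HasDerivAt.fun_sum fun i _ => ?_
      refine ((d1 i).pow 2).congr_deriv ?_
      norm_num
    exact (d3.mul d2).deriv
  have hG0 : 0 ≤ G t := by
    refine le_trans ?_ hP.grad
    unfold B2
    refine setIntegral_nonneg measurableSet_ball fun x _ => ?_
    unfold gsq
    exact Finset.sum_nonneg fun i _ => Finset.sum_nonneg fun j _ => sq_nonneg _
  have hZ := Z_main (w := fun i y => W t y i) (u := fun i y => v t y i) (π := P) (φ := Φ t) hw hu
    hP.sP hφ hc
  obtain ⟨F, hFdef⟩ : ∃ F : V → ℝ, F = (fun x => ∑ j,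
      ((∑ i, (2 * pd j (fun y => W t y i * pd j (fun y => W t y i) y * Φ t y) x
      - pd j (fun y => W t y i * W t y i * pd j (Φ t) y) x
      - pd j (fun y => v t y j * (W t y i * W t y i) * Φ t y) x))
      - 2 * pd j (fun y => P y * W t y j * Φ t y) x)) := ⟨_, rfl⟩
  have hZ' : Z F := by
    rw [hFdef]
    exact hZ
  -- the pointwise bound
  have key : ∀ x, deriv (fun s => nsq (W s) x * Φ s x) t ≤ F x +
      ((-2 * (gsq (W t) x * Φ t x) + nsq (W t) x * (deriv (fun s => Φ s x) t + lap (Φ t) x)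
        + nsq (W t) x * adv (v t) (Φ t) x + 2 * (P x * adv (W t) (Φ t) x))
      + 24 * (√(G t) * (nsq (W t) x * Φ t x) + (√(G t) + G t) * (√(nsq (W t) x) * Φ t x))) := by
    intro x
    have hpt := point (w := fun i y => W t y i) (u := fun i y => v t y i) (π := P) (φ := Φ t)
      hw hu hP.sP hφ x ?_ ?_
    · have hFx : F x = _ := (congrFun hFdef x).trans hpt
      rw [hFx, hD x]
      simp only [nsq, gsq, adv, lap]
      -- reduce to the remainder
      have hrem : (∑ i, 2 * W t x i * deriv (fun s => W s x i) t) * Φ t x ≤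
          (∑ i, 2 * W t x i * (∑ j, pd j (pd j (fun y => W t y i)) x - pd i P x -
            ∑ j, v t x j * pd j (fun y => W t y i) x)) * Φ t x +
          24 * (√(G t) * ((∑ i, W t x i ^ 2) * Φ t x) +
            (√(G t) + G t) * (√(∑ i, W t x i ^ 2) * Φ t x)) := by
        by_cases hx : x ∈ ball (0 : V) 1
        · have hb := rem_bound (fun i => W t x i) (fun i => v t x i)
            (fun i => deriv (fun s => W s x i) t + adv (v t) (fun y => v t y i) x
              - lap (fun y => v t y i) x + pd i P x)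
            (fun i j => pd j (fun y => v t y i - W t y i) x) (√(G t)) (G t) (Real.sqrt_nonneg _)
            (Real.sq_sqrt hG0).symm (fun i => hP.dD x hx i) (fun i j => hP.gD x hx i j)
            (fun i => hP.evo x hx i)
          have e : ∀ i, deriv (fun s => W s x i) t =
              (∑ j, pd j (pd j (fun y => W t y i)) x - pd i P x -
                ∑ j, v t x j * pd j (fun y => W t y i) x) +
              ((deriv (fun s => W s x i) t + adv (v t) (fun y => v t y i) x
                - lap (fun y => v t y i) x + pd i P x) -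
                ∑ j, v t x j * pd j (fun y => v t y i - W t y i) x) := by
            intro i
            have e1 := hP.lapD x hx i
            rw [e1]
            have e2 : adv (v t) (fun y => v t y i) x = (∑ j, v t x j * pd j (fun y => W t y i) x) +
                ∑ j, v t x j * pd j (fun y => v t y i - W t y i) x := by
              unfold adv
              rw [← Finset.sum_add_distrib]
              refine Finset.sum_congr rfl fun j _ => ?_
              rw [pd_sub' (hu i) (hw i)]
              ring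
            rw [e2]
            have e3 : lap (fun y => W t y i) x = ∑ j, pd j (pd j (fun y => W t y i)) x := rfl
            rw [e3]
            ring
          have e' : (∑ i, 2 * W t x i * deriv (fun s => W s x i) t) =
              (∑ i, 2 * W t x i * (∑ j, pd j (pd j (fun y => W t y i)) x - pd i P x -
                ∑ j, v t x j * pd j (fun y => W t y i) x)) +
              ∑ i, 2 * W t x i * ((deriv (fun s => W s x i) t + adv (v t) (fun y => v t y i) x
                - lap (fun y => v t y i) x + pd i P x) -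
                ∑ j, v t x j * pd j (fun y => v t y i - W t y i) x) := by
            rw [← Finset.sum_add_distrib]
            refine Finset.sum_congr rfl fun i _ => ?_
            rw [← mul_add, ← e i]
          rw [e', add_mul]
          refine add_le_add le_rfl ?_
          refine (mul_le_mul_of_nonneg_right hb (hpos x)).trans (le_of_eq ?_)
          ring
        · rw [hs t ht x hx]
          simp
      linarith
    · by_cases hx : x ∈ ball (0 : V) 1
      · have h := hP.divv x hx
        unfold dv at h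
        rw [h, zero_mul]
      · rw [hs t ht x hx, mul_zero]
    · by_cases hx : x ∈ ball (0 : V) 1
      · have h := hP.divW x hx
        unfold dv at h
        rw [h, zero_mul]
      · rw [hs t ht x hx, mul_zero]
  have i0 : Integrable fun x => deriv (fun s => nsq (W s) x * Φ s x) t :=
    int_cs (cont_dt_slice (F := fun s z => nsq (W s) z * Φ s z) hF ht)
      (hcs fun z hz => dt_zero (F := fun s z => nsq (W s) z * Φ s z) hF0 ht hz)
  have i1 : Integrable fun x => -2 * (gsq (W t) x * Φ t x) :=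
    (int_cs (hg.mul hφ.continuous) hc.mul_left).const_mul (-2)
  have i2 : Integrable fun x => nsq (W t) x * (deriv (fun s => Φ s x) t + lap (Φ t) x) :=
    int_cs (hn.mul (hdΦ.add hlap)) ((hdc.add hlc).mul_left)
  have i3 : Integrable fun x => nsq (W t) x * adv (v t) (Φ t) x :=
    int_cs (hn.mul (hadvc _ hu)) (hadvs _).mul_left
  have i4 : Integrable fun x => 2 * (P x * adv (W t) (Φ t) x) :=
    (int_cs (hP.sP.continuous.mul (hadvc _ hw)) (hadvs _).mul_left).const_mul 2
  have i5 : Integrable fun x => √(G t) * (nsq (W t) x * Φ t x) :=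
    (int_cs (hn.mul hφ.continuous) hc.mul_left).const_mul _
  have i6 : Integrable fun x => (√(G t) + G t) * (√(nsq (W t) x) * Φ t x) :=
    (int_cs (hn.sqrt.mul hφ.continuous) hc.mul_left).const_mul _
  have i12 : Integrable fun x => -2 * (gsq (W t) x * Φ t x) +
      nsq (W t) x * (deriv (fun s => Φ s x) t + lap (Φ t) x) := i1.add i2
  have i123 : Integrable fun x => -2 * (gsq (W t) x * Φ t x) +
      nsq (W t) x * (deriv (fun s => Φ s x) t + lap (Φ t) x) +
      nsq (W t) x * adv (v t) (Φ t) x := i12.add i3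
  have i1234 : Integrable fun x => -2 * (gsq (W t) x * Φ t x) +
      nsq (W t) x * (deriv (fun s => Φ s x) t + lap (Φ t) x) +
      nsq (W t) x * adv (v t) (Φ t) x + 2 * (P x * adv (W t) (Φ t) x) := i123.add i4
  have i56 : Integrable fun x => √(G t) * (nsq (W t) x * Φ t x) +
      (√(G t) + G t) * (√(nsq (W t) x) * Φ t x) := i5.add i6
  have i56' : Integrable fun x => 24 * (√(G t) * (nsq (W t) x * Φ t x) +
      (√(G t) + G t) * (√(nsq (W t) x) * Φ t x)) := i56.const_mul 24
  have iR : Integrable fun x => (-2 * (gsq (W t) x * Φ t x) +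
      nsq (W t) x * (deriv (fun s => Φ s x) t + lap (Φ t) x) +
      nsq (W t) x * adv (v t) (Φ t) x + 2 * (P x * adv (W t) (Φ t) x)) +
      24 * (√(G t) * (nsq (W t) x * Φ t x) +
      (√(G t) + G t) * (√(nsq (W t) x) * Φ t x)) := i1234.add i56'
  have hmono := integral_mono i0 (hZ'.1.add iR) key
  refine hmono.trans (le_of_eq ?_)
  have hsum : ∫ x, (F x + ((-2 * (gsq (W t) x * Φ t x) +
      nsq (W t) x * (deriv (fun s => Φ s x) t + lap (Φ t) x) +
      nsq (W t) x * adv (v t) (Φ t) x + 2 * (P x * adv (W t) (Φ t) x)) +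
      24 * (√(G t) * (nsq (W t) x * Φ t x) +
      (√(G t) + G t) * (√(nsq (W t) x) * Φ t x)))) = _ := integral_add hZ'.1 iR
  refine hsum.trans ?_
  rw [hZ'.2, zero_add, integral_add i1234 i56', integral_add i123 i4, integral_add i12 i3,
    integral_add i1 i2, integral_const_mul, integral_const_mul, integral_const_mul,
    integral_add i5 i6, integral_const_mul, integral_const_mul]

end Pool.Agent.W352.ME
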